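import Pool.Agent.L5helper17.NF.Pack
import Pool.Agent.TH940.Fin

/-!
# Central values of twists of newforms of all even weights

`f ∈ S_{2m}(Γ₁(N))`, `m ≥ 1`, is a newform with character `η`.  The `L`-function `L(f, χ, s)` of the
twist of `f` by a primitive Dirichlet character `χ` is the `L`-function of the motive `M(f) ⊗ χ`;
its centre is `s = m`.

* `L(f, χ, m) ≠ 0` for **all** primitive Dirichlet characters `χ` of conductor `q` prime to `N` and of
  order at least `q ^ (3/4 + ε)`, if `q` is large in terms of `f` and `ε`.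
* Some conjugate `χ ^ a` (`a` prime to the order of `χ` and `≡ 1` modulo any given `M`) even satisfies
  `|L(f, χ ^ a, m)| ≥ q ^ (-ε)`.
* For the powers `q = p ^ k` of the primes `p ≠ 2`, `p ∤ N`, the order of vanishing at `s = m` of the
  `L`-function `∏_χ L(f, χ, s)` of `f` over `ℚ(ζ_q)` is at most `C q ^ (3/4 + ε)` and at most
  `C p ^ (3 + ε)`, with `C` depending only on `f` and `ε`.

By Kato's theorem `L(f, χ, m) ≠ 0` implies that the Bloch–Kato Selmer group of the twist by `χ` of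
the representation `V(f)(m)` vanishes, so the order formula of Bloch and Kato holds for it.

The mean value of the central values over the conjugates of `χ` is taken from the starting modules of
helper192 and others (`W192.CY`, `W192.WO`, `W471.WO`, ...).  The passage from one conjugate to all of
them is new: the periods `∫ f(z) P(z) dz` between cusps, `P` an integral polynomial of degree at most
`2m - 2`, lie in a finitely generated group, which has coordinates in a cyclotomic field `ℚ(ζ_M)`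
with respect to a family which is linearly independent over the maximal cyclotomic field.
-/

set_option autoImplicit false

open Complex UpperHalfPlane MatrixGroups CongruenceSubgroup

namespace Pool.Agent.Results.MP_ec4e4b_nt.NewformTwistsAllWeights

/-- The `n`-th Fourier coefficient of `f`. -/
noncomputable def coef {N : ℕ} {k : ℤ} (f : CuspForm (Gamma1 N : Subgroup (GL (Fin 2) ℝ)) k)
    (n : ℕ) : ℂ :=
  (qExpansion 1 f).coeff n

/-- `f ∈ S_{2m}(Γ₁(N))` is a newform with character `η`, with its standard properties: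
`f(γτ) = η(d) (cτ + d)^(2m) f(τ)` for all `γ = (a b; c d) ∈ Γ₀(N)`; the Fourier coefficients `c(n)` of
`f` satisfy `c(1) = 1`, `c(ab) = c(a) c(b)` for coprime `a`, `b` and
`c(p^(j+2)) = c(p) c(p^(j+1)) - η(p) p^(2m-1) c(p^j)`; for the primes `p ∤ N` also
`conj c(p) = conj η(p) c(p)` and `|c(p)| ≤ 2 p^((2m-1)/2)` (Deligne), for the primes `p ∣ N`
`|c(p)| ≤ p^((2m-1)/2)`; and the Fricke involution takes `f` to a multiple of `f^c`,
`f^c(τ) = conj f(-conj τ)`: `f(-1/(Nτ)) = w N^m τ^(2m) f^c(τ)` with `|w| = 1`. -/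
structure IsNewform (m N : ℕ) (η : DirichletCharacter ℂ N)
    (f : CuspForm (Gamma1 N : Subgroup (GL (Fin 2) ℝ)) (2 * m : ℤ)) : Prop where
  neb : ∀ γ : SL(2, ℤ), γ ∈ Gamma0 N → ∀ τ : ℍ, f (γ • τ) = η ((γ 1 1 : ℤ) : ZMod N) *
    (((γ 1 0 : ℤ) : ℂ) * (τ : ℂ) + ((γ 1 1 : ℤ) : ℂ)) ^ (2 * m) * f τ
  one : coef f 1 = 1
  mul : ∀ a b : ℕ, Nat.Coprime a b → coef f (a * b) = coef f a * coef f b
  pow : ∀ p j : ℕ, p.Prime → coef f (p ^ (j + 2)) = coef f p * coef f (p ^ (j + 1)) -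
    η (p : ZMod N) * (p : ℂ) ^ (2 * m - 1) * coef f (p ^ j)
  conj : ∀ p : ℕ, p.Prime → ¬ p ∣ N → (starRingEnd ℂ) (coef f p) =
    (starRingEnd ℂ) (η (p : ZMod N)) * coef f p
  good : ∀ p : ℕ, p.Prime → ¬ p ∣ N → ‖coef f p‖ ≤ 2 * (p : ℝ) ^ ((2 * m - 1 : ℝ) / 2)
  bad : ∀ p : ℕ, p.Prime → p ∣ N → ‖coef f p‖ ≤ (p : ℝ) ^ ((2 * m - 1 : ℝ) / 2)
  fricke : ∃ w : ℂ, ‖w‖ = 1 ∧ ∀ τ τ' τc : ℍ, (τ' : ℂ) * ((N : ℂ) * (τ : ℂ)) = -1 →
    (τc : ℂ) = -(starRingEnd ℂ) (τ : ℂ) →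
    f τ' = w * (N : ℂ) ^ m * (τ : ℂ) ^ (2 * m) * (starRingEnd ℂ) (f τc)

/-- The Euler factor of `L(f, χ, s)` at the prime `p`:
`(1 - χ(p) c(p) p^(-s) + χ(p)² η(p) p^(2m-1-2s))⁻¹`. -/
noncomputable def factor {m N : ℕ} (η : DirichletCharacter ℂ N)
    (f : CuspForm (Gamma1 N : Subgroup (GL (Fin 2) ℝ)) (2 * m : ℤ)) (q : ℕ)
    (χ : DirichletCharacter ℂ q) (s : ℂ) (p : ℕ) : ℂ :=
  (1 - χ (p : ZMod q) * coef f p * (p : ℂ) ^ (-s) +
    χ (p : ZMod q) ^ 2 * η (p : ZMod N) * (p : ℂ) ^ (2 * (m : ℂ) - 1 - 2 * s))⁻¹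

theorem nnewf {m N : ℕ} {η : DirichletCharacter ℂ N}
    {f : CuspForm (Gamma1 N : Subgroup (GL (Fin 2) ℝ)) (2 * m : ℤ)} (hf : IsNewform m N η f) :
    ∃ w : ℂ, Pool.Agent.W192.CY.NNewf m N η f w := by
  obtain ⟨w, hw, hfr⟩ := hf.fricke
  refine ⟨(-1) ^ m * w, ⟨hf.one, hf.mul, hf.pow, hf.conj, hf.good, hf.bad, hf.neb, ?_, ?_⟩⟩
  · rw [norm_mul, hw, norm_pow, norm_neg, norm_one, one_pow, one_mul]
  · intro τ τ' τc h1 h2
    rw [hfr τ τ' τc h1 h2]
    have h3 : ((-1 : ℂ) ^ m) * (-1) ^ m = 1 := by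
      rw [← mul_pow]
      norm_num
    linear_combination (-(w * (N : ℂ) ^ m * (τ : ℂ) ^ (2 * m) * (starRingEnd ℂ) (f τc))) * h3

/-- the order of a product at a point -/
theorem order_prod {ι : Type} (s : Finset ι) (F : ι → ℂ → ℂ) (z : ℂ)
    (h1 : ∀ i ∈ s, AnalyticAt ℂ (F i) z) (h2 : ∀ i ∈ s, analyticOrderAt (F i) z ≠ ⊤) :
    analyticOrderAt (fun w => ∏ i ∈ s, F i w) z =
      ((∑ i ∈ s, analyticOrderNatAt (F i) z : ℕ) : ℕ∞) := by
  classical
  induction s using Finset.induction_on with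
  | empty =>
    simp only [Finset.prod_empty, Finset.sum_empty]
    rw [(analyticAt_const).analyticOrderAt_eq_zero.2 one_ne_zero]
    rfl
  | insert i s hi ih =>
    have h3 : (fun w => ∏ j ∈ insert i s, F j w) = (F i) * (fun w => ∏ j ∈ s, F j w) := by
      funext w
      rw [Finset.prod_insert hi]
      rfl
    have h4 : AnalyticAt ℂ (fun w => ∏ j ∈ s, F j w) z :=
      Finset.analyticAt_fun_prod s fun j hj => h1 j (Finset.mem_insert_of_mem hj)
    rw [h3, analyticOrderAt_mul (h1 i (Finset.mem_insert_self i s)) h4,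
      ih (fun j hj => h1 j (Finset.mem_insert_of_mem hj))
        (fun j hj => h2 j (Finset.mem_insert_of_mem hj)), Finset.sum_insert hi,
      ← Nat.cast_analyticOrderNatAt (h2 i (Finset.mem_insert_self i s))]
    push_cast
    rfl

theorem order_ne_top (F : ℂ → ℂ) (hF : Differentiable ℂ F) (z0 : ℂ) (h0 : F z0 ≠ 0) (z : ℂ) :
    analyticOrderAt F z ≠ ⊤ := by
  intro h
  rw [analyticOrderAt_eq_top] at h
  have h1 : AnalyticOnNhd ℂ F Set.univ := fun z _ => hF.analyticAt z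
  have h2 := h1.eqOn_zero_of_preconnected_of_eventuallyEq_zero isPreconnected_univ
    (Set.mem_univ z) h
  exact h0 (h2 (Set.mem_univ z0))

/-- **Main theorem.** Let `m ≥ 1` and let `f ∈ S_{2m}(Γ₁(N))` be a newform with character `η`.  There
are entire functions `L q χ` for the primitive Dirichlet characters `χ` of conductor `q` prime to
`N`, equal to the Euler product of `L(f, χ, s)` for `Re s > m + 1/2`, and for the numbers `q ≥ 1`
prime to `N` the functions `Z q s = ∏_χ L(f, χ', s)` (`χ` runs over all characters modulo `q` and `χ'`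
is the primitive character which induces `χ`) are entire and not identically zero, such that:

* for every `M ≥ 1` and every `ε > 0` there is `q₀` such that for all `q ≥ q₀` prime to `N` and **all**
  primitive characters `χ` modulo `q` of order at least `q ^ (3/4 + ε)` one has `L(f, χ, m) ≠ 0`, and
  for some natural number `a` prime to the order of `χ`, `a ≡ 1 mod M`, the character `χ ^ a` is
  primitive and `|L(f, χ ^ a, m)| ≥ q ^ (-ε)`;
* for every `ε > 0` there is `C` such that for all primes `p ≠ 2`, `p ∤ N` and all `k` the order of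
  vanishing of `Z (p ^ k)` at `s = m` is at most `C (p ^ k) ^ (3/4 + ε)` and at most
  `C p ^ (3 + ε)`. -/
theorem result (m : ℕ) (hm : 1 ≤ m) (N : ℕ) [NeZero N] (η : DirichletCharacter ℂ N)
    (f : CuspForm (Gamma1 N : Subgroup (GL (Fin 2) ℝ)) (2 * m : ℤ)) (hf : IsNewform m N η f) :
    ∃ (L : (q : ℕ) → DirichletCharacter ℂ q → ℂ → ℂ) (Z : ℕ → ℂ → ℂ),
      (∀ (q : ℕ) (χ : DirichletCharacter ℂ q), 1 ≤ q → Nat.Coprime q N → χ.IsPrimitive →
        Differentiable ℂ (L q χ) ∧ ∀ s : ℂ, (m : ℝ) + 1 / 2 < s.re →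
          HasProd (fun p : Nat.Primes => factor η f q χ s p) (L q χ s)) ∧
      (∀ q : ℕ, 1 ≤ q → Nat.Coprime q N → Differentiable ℂ (Z q) ∧
        analyticOrderAt (Z q) m ≠ ⊤ ∧
        ∀ s : ℂ, Z q s = ∏ᶠ χ : DirichletCharacter ℂ q, L χ.conductor χ.primitiveCharacter s) ∧
      (∀ M : ℕ, 1 ≤ M → ∀ ε : ℝ, 0 < ε → ∃ q₀ : ℕ, ∀ q : ℕ, q₀ ≤ q → Nat.Coprime q N →
        ∀ χ : DirichletCharacter ℂ q, χ.IsPrimitive → (q : ℝ) ^ (3 / 4 + ε) ≤ orderOf χ →
          L q χ m ≠ 0 ∧ ∃ a : ℕ, Nat.Coprime a (orderOf χ) ∧ a ≡ 1 [MOD M] ∧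
            (χ ^ a).IsPrimitive ∧ (q : ℝ) ^ (-ε) ≤ ‖L q (χ ^ a) m‖) ∧
      ∀ ε : ℝ, 0 < ε → ∃ C : ℝ, ∀ p : ℕ, p.Prime → p ≠ 2 → ¬ p ∣ N → ∀ k : ℕ,
        (analyticOrderNatAt (Z (p ^ k)) m : ℝ) ≤ C * ((p : ℝ) ^ k) ^ (3 / 4 + ε) ∧
        (analyticOrderNatAt (Z (p ^ k)) m : ℝ) ≤ C * (p : ℝ) ^ (3 + ε) := by
  classical
  obtain ⟨w, hw⟩ := nnewf hf
  obtain ⟨K, L, hK, hL, hnv⟩ := Pool.Agent.L5helper17.NF.pack m hm N η f w hw
  have han : ∀ (q : ℕ) (χ : DirichletCharacter ℂ q), 1 ≤ q → Nat.Coprime q N → χ.IsPrimitive →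
      ∀ s : ℂ, AnalyticAt ℂ (L q χ) s := fun q χ h1 h2 h3 s => (hL q χ h1 h2 h3).1.analyticAt s
  have htop : ∀ (q : ℕ) (χ : DirichletCharacter ℂ q), 1 ≤ q → Nat.Coprime q N → χ.IsPrimitive →
      ∀ s : ℂ, analyticOrderAt (L q χ) s ≠ ⊤ := fun q χ h1 h2 h3 s =>
    order_ne_top _ (hL q χ h1 h2 h3).1 _ (hL q χ h1 h2 h3).2.2.1 s
  set G : (q : ℕ) → DirichletCharacter ℂ q → ℕ := fun q χ => analyticOrderNatAt (L q χ) m with hG
  have hGH : Pool.Agent.TH940.GH N K G := by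
    refine ⟨hK, fun q χ h1 h2 h3 => (hL q χ h1 h2 h3).2.2.2, fun δ hδ => ?_⟩
    obtain ⟨q0, hq0⟩ := hnv 1 le_rfl δ hδ
    refine ⟨q0, fun q h1 h2 h3 χ h4 h5 => ?_⟩
    have h6 := (hq0 q (by exact_mod_cast h1) h3 χ h4 h5).1
    rw [hG]
    simp only
    unfold analyticOrderNatAt
    rw [(han q χ (by omega) h3 h4 _).analyticOrderAt_eq_zero.2 h6]
    rfl
  have hcond : ∀ q : ℕ, 1 ≤ q → Nat.Coprime q N → ∀ χ : DirichletCharacter ℂ q,
      1 ≤ χ.conductor ∧ Nat.Coprime χ.conductor N ∧ χ.primitiveCharacter.IsPrimitive := by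
    intro q hq hqN χ
    have : NeZero q := ⟨by omega⟩
    exact ⟨Nat.one_le_iff_ne_zero.2 χ.conductor_ne_zero,
      Nat.Coprime.coprime_dvd_left χ.conductor_dvd_level hqN, χ.primitiveCharacter_isPrimitive⟩
  have hord : ∀ q : ℕ, 1 ≤ q → Nat.Coprime q N → analyticOrderAt (fun s : ℂ =>
      ∏ᶠ χ : DirichletCharacter ℂ q, L χ.conductor χ.primitiveCharacter s) m =
      ((Pool.Agent.TH940.tot G q : ℕ) : ℕ∞) := by
    intro q hq hqM
    have : NeZero q := ⟨by omega⟩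
    have hc := hcond q hq hqM
    have e1 : (fun s : ℂ => ∏ᶠ χ : DirichletCharacter ℂ q,
        L χ.conductor χ.primitiveCharacter s) =
        fun z : ℂ => ∏ χ : DirichletCharacter ℂ q, L χ.conductor χ.primitiveCharacter z := by
      funext s
      exact finprod_eq_prod_of_fintype _
    rw [e1, order_prod Finset.univ
      (fun χ : DirichletCharacter ℂ q => L χ.conductor χ.primitiveCharacter) m
      (fun χ _ => han _ _ (hc χ).1 (hc χ).2.1 (hc χ).2.2 _)
      (fun χ _ => htop _ _ (hc χ).1 (hc χ).2.1 (hc χ).2.2 _)]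
    unfold Pool.Agent.TH940.tot
    rw [finsum_eq_sum_of_fintype]
  refine ⟨L, fun q s => ∏ᶠ χ : DirichletCharacter ℂ q, L χ.conductor χ.primitiveCharacter s,
    ?_, ?_, ?_, ?_⟩
  · intro q χ hq hqN hχ
    obtain ⟨h1, h2, -⟩ := hL q χ hq hqN hχ
    exact ⟨h1, fun s hs => h2 s hs⟩
  · intro q hq hqM
    have : NeZero q := ⟨by omega⟩
    refine ⟨?_, ?_, fun _ => rfl⟩
    · simp_rw [finprod_eq_prod_of_fintype]
      have h1 : ∀ χ ∈ (Finset.univ : Finset (DirichletCharacter ℂ q)),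
          Differentiable ℂ (fun s : ℂ => L χ.conductor χ.primitiveCharacter s) := by
        intro χ _
        have hc := hcond q hq hqM χ
        exact (hL χ.conductor χ.primitiveCharacter hc.1 hc.2.1 hc.2.2).1
      exact Differentiable.fun_finsetProd h1
    · rw [hord q hq hqM]
      exact ENat.natCast_ne_top _
  · intro M hM ε hε
    exact hnv M hM ε hε
  · intro ε hε
    obtain ⟨C1, hC1, h1⟩ := Pool.Agent.TH940.tot_bound hGH hε
    obtain ⟨C2, hC2, h2⟩ := Pool.Agent.TH940.tot_bound2 hGH hε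
    refine ⟨max C1 C2, fun p hp hp2 hpN k => ?_⟩
    have hq : 1 ≤ p ^ k := pow_pos hp.pos k
    have hqN : Nat.Coprime (p ^ k) N :=
      Nat.Coprime.pow_left k ((Nat.Prime.coprime_iff_not_dvd hp).2 hpN)
    have h3 : analyticOrderNatAt (fun s : ℂ => ∏ᶠ χ : DirichletCharacter ℂ (p ^ k),
        L χ.conductor χ.primitiveCharacter s) m = Pool.Agent.TH940.tot G (p ^ k) := by
      unfold analyticOrderNatAt
      rw [hord (p ^ k) hq hqN]
      rfl
    rw [h3]
    refine ⟨(h1 p hp hp2 hpN k).trans ?_, (h2 p hp hp2 hpN k).trans ?_⟩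
    · exact mul_le_mul_of_nonneg_right (le_max_left _ _) (by positivity)
    · exact mul_le_mul_of_nonneg_right (le_max_right _ _) (by positivity)

end Pool.Agent.Results.MP_ec4e4b_nt.NewformTwistsAllWeights
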