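import Pool.Agent.L5helper85.Rot.Poly
import Pool.Agent.L5helper85.Rot.Finite
import Pool.Agent.N41.RM.Bad

/-! # A numerical form of the order of vanishing formula for all polarized motives

Every polarized motive whose local factors are rational has an `L` function of the kind treated
here.  Provided it continues along the real axis, its order at the centre, and its leading
coefficient, are read off from the traces of the powers of the Frobenius elements by one weighted
mean, and the order of vanishing formula is equivalent to one limit of finite sums. -/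

set_option autoImplicit false

namespace Pool.Agent.Results.MP_ec4e4b_nt.NumericalOrderFormula

open Filter Topology Set NumberField IsDedekindDomain Polynomial

variable {K : Type} [Field K] [NumberField K]

/-- The local factors `P_v` of a motive over `K`: rational polynomials with constant term `1` and
degree at most `N`; the numbers `α` with `P_v(1 / α) = 0` (the eigenvalues of the Frobenius
element) have absolute value at most `q_v ^ κ`. -/
structure IsEulerSystem (N : ℕ) (κ : ℝ) (P : HeightOneSpectrum (𝓞 K) → ℚ[X]) : Prop where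
  const : ∀ v, (P v).coeff 0 = 1
  deg : ∀ v, (P v).natDegree ≤ N
  roots : ∀ v, ∀ z : ℂ, aeval z (P v) = 0 → 1 ≤ ‖z‖ * (Ideal.absNorm v.asIdeal : ℝ) ^ κ

/-- the Euler product `∏_v P_v(q_v ^ (-s)) ^ (-1)` -/
noncomputable def LFun (P : HeightOneSpectrum (𝓞 K) → ℚ[X]) (s : ℂ) : ℂ :=
  ∏' v, (aeval ((Ideal.absNorm v.asIdeal : ℂ) ^ (-s)) (P v))⁻¹

/-- `F` continues the Euler product: it equals the product in a right half plane and it is
meromorphic at all real numbers `≥ 0` -/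
structure IsContinuation (P : HeightOneSpectrum (𝓞 K) → ℚ[X]) (F : ℂ → ℂ) : Prop where
  mero : ∀ x : ℝ, 0 ≤ x → MeromorphicAt F (x : ℂ)
  eq : ∃ σ : ℝ, ∀ s : ℂ, σ < s.re → F s = LFun P s

/-- the trace of the `k`-th power of the Frobenius element at `v` -/
noncomputable def frobTrace (P : HeightOneSpectrum (𝓞 K) → ℚ[X]) (v : HeightOneSpectrum (𝓞 K))
    (k : ℕ) : ℂ :=
  (((P v).aroots ℂ).map fun z => z⁻¹ ^ k).sum

/-- the logarithm of the norm of the prime power `v ^ k`, for `x = (v, k - 1)` -/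
noncomputable def logNorm (x : HeightOneSpectrum (𝓞 K) × ℕ) : ℝ :=
  (x.2 + 1) * Real.log (Ideal.absNorm x.1.asIdeal)

/-- the term of the prime power `v ^ k`, for `x = (v, k - 1)`: the trace divided by `k`, with the
weight `exp (i γ u) / Γ(1 + u)`, `u = log (q_v ^ k) / T` -/
noncomputable def term (P : HeightOneSpectrum (𝓞 K) → ℚ[X]) (γ T : ℝ)
    (x : HeightOneSpectrum (𝓞 K) × ℕ) : ℂ :=
  frobTrace P x.1 (x.2 + 1) / (x.2 + 1) *
    (Complex.exp ((γ * (logNorm x / T) : ℝ) * Complex.I) /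
      (Real.Gamma (1 + logNorm x / T) : ℂ))

/-- the sum over all prime powers -/
noncomputable def rotSum (P : HeightOneSpectrum (𝓞 K) → ℚ[X]) (γ T : ℝ) : ℂ :=
  ∑' x, term P γ T x

/-- the sum over the prime powers of norm at most `exp Y` -/
noncomputable def finSum (P : HeightOneSpectrum (𝓞 K) → ℚ[X]) (γ T Y : ℝ) : ℂ :=
  ∑ᶠ x ∈ {x : HeightOneSpectrum (𝓞 K) × ℕ | logNorm x ≤ Y}, term P γ T x

/-- the constant `∫_0^∞ (exp (-t) - exp (i γ t) / Γ(1 + t)) dt / t` -/
noncomputable def lamConst (γ : ℝ) : ℂ :=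
  ∫ t in Ioi (0 : ℝ), (Complex.exp (-(t : ℂ)) -
    Complex.exp ((γ * t : ℝ) * Complex.I) * ((Real.Gamma (1 + t))⁻¹ : ℝ)) / t

/-- the positive zeros and poles -/
def realZeros (F : ℂ → ℂ) : Set ℝ := {x : ℝ | 0 < x ∧ meromorphicOrderAt F (x : ℂ) ≠ 0}

/-- the number of the positive zeros minus the number of the positive poles -/
noncomputable def count (F : ℂ → ℂ) : ℤ :=
  ∑ᶠ x ∈ Ioi (0 : ℝ), (meromorphicOrderAt F (x : ℂ)).untop₀

/-! ### Comparison with the library -/

/-- the norms -/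
noncomputable def qn (v : HeightOneSpectrum (𝓞 K)) : ℝ := (Ideal.absNorm v.asIdeal : ℝ)

theorem exists_EG {N : ℕ} {κ : ℝ} {P : HeightOneSpectrum (𝓞 K) → ℚ[X]}
    (hP : IsEulerSystem N κ P) :
    ∃ a : HeightOneSpectrum (𝓞 K) → Fin N → ℂ, Pool.Agent.N41.RM.EG κ qn a ∧
      (∀ v k, ∑ j, a v j ^ (k + 1) = frobTrace P v (k + 1)) ∧
      ∀ v t, aeval t (P v) = ∏ j, (1 - a v j * t) := by
  have h := fun v => Pool.Agent.L5helper85.Rot.exists_param (P v) (hP.const v) (hP.deg v)
    (B := (qn v) ^ κ) (Real.rpow_nonneg (by unfold qn; positivity) _) (hP.roots v)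
  choose a h1 h2 h3 h4 using h
  exact ⟨a, ⟨fun v => Pool.Agent.R409.RA.two_le v,
    fun σ hσ => Pool.Agent.R409.RA.summable_nm hσ, h1, h3⟩, h2, h4⟩

theorem term_eq {N : ℕ} {κ : ℝ} {P : HeightOneSpectrum (𝓞 K) → ℚ[X]}
    {a : HeightOneSpectrum (𝓞 K) → Fin N → ℂ} (E : Pool.Agent.N41.RM.EG κ qn a)
    (h : ∀ v k, ∑ j, a v j ^ (k + 1) = frobTrace P v (k + 1)) (γ T : ℝ)
    (x : HeightOneSpectrum (𝓞 K) × ℕ) :
    term P γ T x = Pool.Agent.L5helper85.Rot.ct qn a γ T x := by
  have e3 : ((∑ j, a x.1 j ^ (x.2 + 1)).re : ℂ) = frobTrace P x.1 (x.2 + 1) := by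
    rw [← h]
    apply Complex.ext
    · simp
    · rw [E.real x.1 x.2, Complex.ofReal_im]
  unfold term Pool.Agent.L5helper85.Rot.ct
  have h2 : Pool.Agent.N41.RM.fq qn x = logNorm x := rfl
  have h3 : (Pool.Agent.N41.RM.cq a x : ℂ) = frobTrace P x.1 (x.2 + 1) / (x.2 + 1) := by
    unfold Pool.Agent.N41.RM.cq
    rw [← e3]
    push_cast
    rfl
  have h4 : (Pool.Agent.W189.ML.om (logNorm x / T) : ℂ) =
      (Real.Gamma (1 + logNorm x / T) : ℂ)⁻¹ := by
    unfold Pool.Agent.W189.ML.om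
    rw [Complex.ofReal_inv]
  rw [h2, h3, h4]
  ring

theorem LFun_eq {N : ℕ} {P : HeightOneSpectrum (𝓞 K) → ℚ[X]}
    {a : HeightOneSpectrum (𝓞 K) → Fin N → ℂ}
    (h : ∀ v t, aeval t (P v) = ∏ j, (1 - a v j * t)) (s : ℂ) :
    LFun P s = ∏' v, ∏ j, (1 - a v j * (qn v : ℂ) ^ (-s))⁻¹ := by
  unfold LFun
  refine tprod_congr fun v => ?_
  rw [h, Finset.prod_inv_distrib]
  rfl

theorem main_law {N : ℕ} {κ : ℝ} {P : HeightOneSpectrum (𝓞 K) → ℚ[X]}
    (hP : IsEulerSystem N κ P) {F : ℂ → ℂ} (hF : IsContinuation P F) {γ : ℝ}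
    (hγ : Real.pi / 2 < γ) :
    ∃ (r : ℤ) (l : ℝ), meromorphicOrderAt F 0 = r ∧ meromorphicTrailingCoeffAt F 0 = l ∧
      0 < (-1 : ℝ) ^ count F * l ∧
      ∃ C T₀ : ℝ, ∀ T ≥ T₀,
        ‖rotSum P γ T - (-r * (Real.log T - lamConst γ) + Real.log |l| -
          Real.pi * count F * Complex.I)‖ ≤ C / T ∧
        ∀ Y ≥ Real.exp ((|κ| + 4) * T),
          ‖finSum P γ T Y - (-r * (Real.log T - lamConst γ) + Real.log |l| -
            Real.pi * count F * Complex.I)‖ ≤ C / T := by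
  obtain ⟨a, E, h1, h2⟩ := exists_EG hP
  obtain ⟨σ₀, hσ₀⟩ := hF.eq
  set σ : ℝ := max σ₀ (max (1 + κ) 1) with hσ
  have hs1 : σ₀ ≤ σ := le_max_left _ _
  have hs2 : 1 + κ ≤ σ := (le_max_left _ _).trans (le_max_right _ _)
  have hs3 : 1 ≤ σ := (le_max_right _ _).trans (le_max_right _ _)
  obtain ⟨r, l, h3, h4, h5, C, T₀, h6⟩ := Pool.Agent.L5helper85.Rot.law_one E (F := F) hs2
    (by linarith) hF.mero (fun s hs => by rw [hσ₀ s (by linarith), LFun_eq h2]) hγ
  have hterm : ∀ T x, term P γ T x = Pool.Agent.L5helper85.Rot.ct qn a γ T x :=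
    fun T x => term_eq E h1 γ T x
  have hrot : ∀ T, rotSum P γ T = ∑' x, Pool.Agent.L5helper85.Rot.ct qn a γ T x :=
    fun T => tsum_congr fun x => hterm T x
  have hfin : ∀ T Y, finSum P γ T Y = ∑ᶠ x ∈ {x : HeightOneSpectrum (𝓞 K) × ℕ |
      Pool.Agent.N41.RM.fq qn x ≤ Y}, Pool.Agent.L5helper85.Rot.ct qn a γ T x :=
    fun T Y => finsum_mem_congr rfl fun x _ => hterm T x
  set S : ℝ := ∑' x, |Pool.Agent.N41.RM.cq a x| *
    Real.exp (-((2 + |κ|) * Pool.Agent.N41.RM.fq qn x)) with hS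
  have hS0 : 0 ≤ S := tsum_nonneg fun x => by positivity
  refine ⟨r, l, h3, h4, h5, C + 2 * S, max T₀ 1, fun T hT => ?_⟩
  have hT0 : T₀ ≤ T := (le_max_left _ _).trans hT
  have hT1 : 1 ≤ T := (le_max_right _ _).trans hT
  have hTp : 0 < T := by linarith
  have h7 := h6 T hT0
  have h8 : Pool.Agent.W187.UR.cmean (Pool.Agent.N41.RM.fq qn) (Pool.Agent.N41.RM.cq a) γ T =
      rotSum P γ T := by
    rw [hrot]
    rfl
  rw [h8] at h7
  constructor
  · refine h7.trans ?_
    gcongr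
    linarith
  · intro Y hY
    have h9 := Pool.Agent.L5helper85.Rot.tail_le E γ hT1 hY
    rw [← hrot, ← hfin] at h9
    have h10 : finSum P γ T Y - (-r * (Real.log T - lamConst γ) + Real.log |l| -
        Real.pi * count F * Complex.I) = (rotSum P γ T - (-r * (Real.log T - lamConst γ) +
        Real.log |l| - Real.pi * count F * Complex.I)) - (rotSum P γ T - finSum P γ T Y) := by
      ring
    rw [h10, add_div]
    exact (norm_sub_le _ _).trans (add_le_add h7 h9)

/-- the real part divided by the logarithm -/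
theorem lim_re {r : ℤ} {Λ c : ℂ} {C : ℝ} {T : ℕ → ℝ} {W : ℕ → ℂ}
    (hT : Tendsto T atTop atTop)
    (h : ∀ᶠ n in atTop, ‖W n - (-r * (Real.log (T n) - Λ) + c)‖ ≤ C / T n) :
    Tendsto (fun n => (W n).re / Real.log (T n)) atTop (𝓝 (-r : ℝ)) := by
  have h1 : Tendsto (fun n => W n - (-r * (Real.log (T n) - Λ) + c)) atTop (𝓝 0) := by
    refine squeeze_zero_norm' h ?_
    exact tendsto_const_nhds.div_atTop hT
  set K : ℂ := r * Λ + c with hK
  have hlog := Real.tendsto_log_atTop.comp hT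
  have h2 : Tendsto (fun n => ((W n - (-r * (Real.log (T n) - Λ) + c)).re + K.re) /
      Real.log (T n) + (-r : ℝ)) atTop (𝓝 (0 + (-r : ℝ))) := by
    refine Tendsto.add_const _ ?_
    have h3 := (Complex.continuous_re.tendsto 0).comp h1
    exact (h3.add_const K.re).div_atTop hlog
  rw [zero_add] at h2
  refine h2.congr' ?_
  filter_upwards [hT.eventually (eventually_gt_atTop 1)] with n hn
  have hl : Real.log (T n) ≠ 0 := (Real.log_pos hn).ne'
  rw [div_add' _ _ _ hl, ← Complex.add_re]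
  congr 1
  have h4 : W n - (-r * (Real.log (T n) - Λ) + c) + K = W n - ((-r * Real.log (T n) : ℝ) : ℂ) := by
    rw [hK]
    push_cast
    ring
  rw [h4, Complex.sub_re, Complex.ofReal_re]
  ring

/-- **The numerical form of the order formula.** -/
theorem result (N : ℕ) (κ : ℝ) (P : HeightOneSpectrum (𝓞 K) → ℚ[X])
    (hP : IsEulerSystem N κ P) :
    (∀ γ T : ℝ, 0 < T → Summable fun x => ‖term P γ T x‖) ∧
    (∀ Y : ℝ, {x : HeightOneSpectrum (𝓞 K) × ℕ | logNorm x ≤ Y}.Finite) ∧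
    ∀ F : ℂ → ℂ, IsContinuation P F →
      (realZeros F).Finite ∧
      ∃ (r : ℤ) (l : ℝ), meromorphicOrderAt F 0 = r ∧ l ≠ 0 ∧
        Tendsto (fun s : ℂ => F s / s ^ r) (𝓝[≠] 0) (𝓝 (l : ℂ)) ∧
        0 < (-1 : ℝ) ^ count F * l ∧
        (∀ γ : ℝ, Real.pi / 2 < γ → ∃ C T₀ : ℝ, ∀ T ≥ T₀,
          ‖rotSum P γ T - (-r * (Real.log T - lamConst γ) + Real.log |l| -
            Real.pi * count F * Complex.I)‖ ≤ C / T ∧
          ∀ Y ≥ Real.exp ((|κ| + 4) * T),
            ‖finSum P γ T Y - (-r * (Real.log T - lamConst γ) + Real.log |l| -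
              Real.pi * count F * Complex.I)‖ ≤ C / T) ∧
        ∀ ρ : ℤ,
          (meromorphicOrderAt F 0 = ρ ↔ ∃ γ : ℝ, Real.pi / 2 < γ ∧ ∃ T : ℕ → ℝ,
            Tendsto T atTop atTop ∧
            Tendsto (fun n => (rotSum P γ (T n)).re / Real.log (T n)) atTop (𝓝 (-ρ : ℝ))) ∧
          (meromorphicOrderAt F 0 = ρ ↔ ∃ γ : ℝ, Real.pi / 2 < γ ∧ ∃ T Y : ℕ → ℝ,
            Tendsto T atTop atTop ∧ (∀ n, Real.exp ((|κ| + 4) * T n) ≤ Y n) ∧
            Tendsto (fun n => (finSum P γ (T n) (Y n)).re / Real.log (T n)) atTop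
              (𝓝 (-ρ : ℝ))) := by
  obtain ⟨a, E, h1, h2⟩ := exists_EG hP
  refine ⟨fun γ T hT => ?_, fun Y => Pool.Agent.L5helper85.Rot.upTo_finite E Y, fun F hF => ?_⟩
  · simp only [term_eq E h1]
    exact Pool.Agent.L5helper85.Rot.ct_summable E γ hT
  have hfinite : (realZeros F).Finite := by
    obtain ⟨σ₀, hσ₀⟩ := hF.eq
    exact Pool.Agent.L5helper85.Rot.zp_finite E (F := F) (σ := max σ₀ (1 + κ)) (le_max_right _ _)
      hF.mero (fun s hs => by rw [hσ₀ s ((le_max_left _ _).trans_lt hs), LFun_eq h2])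
  have hpi : Real.pi / 2 < 2 := by linarith [Real.pi_lt_four]
  obtain ⟨r, l, h3, h4, h5, -⟩ := main_law hP hF hpi
  have hl : l ≠ 0 := by
    rintro rfl
    simp at h5
  have hm0 : MeromorphicAt F 0 := by
    have := hF.mero 0 le_rfl
    rwa [Complex.ofReal_zero] at this
  have hlaw : ∀ γ : ℝ, Real.pi / 2 < γ → ∃ C T₀ : ℝ, ∀ T ≥ T₀,
      ‖rotSum P γ T - (-r * (Real.log T - lamConst γ) + Real.log |l| -
        Real.pi * count F * Complex.I)‖ ≤ C / T ∧
      ∀ Y ≥ Real.exp ((|κ| + 4) * T),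
        ‖finSum P γ T Y - (-r * (Real.log T - lamConst γ) + Real.log |l| -
          Real.pi * count F * Complex.I)‖ ≤ C / T := by
    intro γ hγ
    obtain ⟨r', l', h3', h4', -, C, T₀, h⟩ := main_law hP hF hγ
    have e1 : r' = r := by
      rw [h3] at h3'
      exact_mod_cast h3'.symm
    have e2 : l' = l := by
      rw [h4] at h4'
      exact_mod_cast h4'.symm
    subst e1 e2
    exact ⟨C, T₀, h⟩
  refine ⟨hfinite, r, l, h3, hl, ?_, h5, hlaw, fun ρ => ⟨⟨fun h => ?_, ?_⟩, ⟨fun h => ?_, ?_⟩⟩⟩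
  · have h6 := Pool.Agent.N41.RM.lim_of_order hm0 h3 h4
    refine h6.congr fun s => ?_
    rw [sub_zero, zpow_neg, div_eq_mul_inv, mul_comm]
  · have e : r = ρ := by
      rw [h3] at h
      exact_mod_cast h
    subst e
    refine ⟨2, hpi, fun n => n, tendsto_natCast_atTop_atTop, ?_⟩
    obtain ⟨C, T₀, hC⟩ := hlaw 2 hpi
    refine lim_re (Λ := lamConst 2) (C := C)
      (c := Real.log |l| - Real.pi * count F * Complex.I) tendsto_natCast_atTop_atTop ?_
    filter_upwards [tendsto_natCast_atTop_atTop.eventually (eventually_ge_atTop T₀)] with n hn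
    rw [← add_sub_assoc]
    exact (hC n hn).1
  · rintro ⟨γ, hγ, T, hT, hlim⟩
    obtain ⟨C, T₀, hC⟩ := hlaw γ hγ
    have h7 := lim_re (Λ := lamConst γ) (C := C) (r := r)
      (W := fun n => rotSum P γ (T n))
      (c := Real.log |l| - Real.pi * count F * Complex.I) hT (by
        filter_upwards [hT.eventually (eventually_ge_atTop T₀)] with n hn
        rw [← add_sub_assoc]
        exact (hC (T n) hn).1)
    have h8 := tendsto_nhds_unique h7 hlim
    have h9 : r = ρ := by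
      have : (r : ℝ) = ρ := by linarith
      exact_mod_cast this
    rw [h3, h9]
  · have e : r = ρ := by
      rw [h3] at h
      exact_mod_cast h
    subst e
    refine ⟨2, hpi, fun n => n, fun n => Real.exp ((|κ| + 4) * n), tendsto_natCast_atTop_atTop,
      fun n => le_rfl, ?_⟩
    obtain ⟨C, T₀, hC⟩ := hlaw 2 hpi
    refine lim_re (Λ := lamConst 2) (C := C)
      (c := Real.log |l| - Real.pi * count F * Complex.I) tendsto_natCast_atTop_atTop ?_
    filter_upwards [tendsto_natCast_atTop_atTop.eventually (eventually_ge_atTop T₀)] with n hn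
    rw [← add_sub_assoc]
    exact (hC n hn).2 _ le_rfl
  · rintro ⟨γ, hγ, T, Y, hT, hY, hlim⟩
    obtain ⟨C, T₀, hC⟩ := hlaw γ hγ
    have h7 := lim_re (Λ := lamConst γ) (C := C) (r := r)
      (W := fun n => finSum P γ (T n) (Y n))
      (c := Real.log |l| - Real.pi * count F * Complex.I) hT (by
        filter_upwards [hT.eventually (eventually_ge_atTop T₀)] with n hn
        rw [← add_sub_assoc]
        exact (hC (T n) hn).2 _ (hY n))
    have h8 := tendsto_nhds_unique h7 hlim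
    have h9 : r = ρ := by
      have : (r : ℝ) = ρ := by linarith
      exact_mod_cast this
    rw [h3, h9]

end Pool.Agent.Results.MP_ec4e4b_nt.NumericalOrderFormula
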