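import Pool.Agent.L5helper6.SL.Law

/-!
# The two sides of the order of vanishing formula in the families of quadratic twists

`E_d : y² = x³ + a d² x + b d³`, `d` squarefree (positive or negative), are the quadratic twists of
`E : y² = x³ + a x + b`.  Let `M_d = h¹(E_d)(1)`, so that `L(s, M_d) = L(E_d, s + 1)`.  For `0 ≤ η ≤ 1/8`
let `n_d(η)` be the number of zeros, with multiplicities, of `L(E_d, s)` in the disc `|s - 1| ≤ η`; so
`n_d(0)` is the order of vanishing of `L(s, M_d)` at `s = 0`.  We prove, for all `E` with `j`-invariant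
`0` or `1728`, for all quadratic twists of `X₀(11)` and `X₀(14)`, and for every elliptic curve over `ℚ`
whose quadratic twists are modular:

* `H⁰(ℚ, V_2 E_d) = 0` and `dim H¹_f(ℚ, V_2 E_d) ≤ C + 12 ω(d)`;
* the exponential moment of `rank E_d(ℚ) + dim H¹_f(ℚ, V_2 E_d) + n_d(η)` over `|d| ≤ X` is at most
  `C X^(1 + 7 η) (log X)^A`, uniformly for `0 ≤ η ≤ 1/8`;
* for all `k`, `B` the sum of the `k`-th powers of this quantity over ANY set `S` of squarefree
  `d`, `|d| ≤ X`, is at most `C (|S| + X / (log X)^B) (1 + log log X + η log X)^k`.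

The exponential moment of the order of vanishing alone is in the library of helper19 and others
(project QT).  New here: the zeros near the central point, uniformly in the radius, and the
Bloch–Kato Selmer group.
-/

set_option autoImplicit false

namespace Pool.Agent.Results.MP_ec4e4b_nt.TwistFamilyMoments

open scoped ENNReal

/-- The elliptic curve `y² = x³ + a x + b` over `ℚ`. -/
def curve (a b : ℤ) : WeierstrassCurve ℚ := ⟨0, 0, 0, a, b⟩

/-- The quadratic twist `E_d : y² = x³ + a d² x + b d³`. -/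
def twist (a b d : ℤ) : WeierstrassCurve ℚ := curve (a * d ^ 2) (b * d ^ 3)

/-- The rank of `E_d(ℚ)`. -/
noncomputable def rank (a b d : ℤ) : ℕ := Module.finrank ℤ (twist a b d).toAffine.Point

/-- `L_d`, the group of the classes in the Bloch–Kato Selmer group `H¹_f(ℚ, V_2(E_d))` that have a
cocycle with values in the Tate module `T_2(E_d)`. -/
noncomputable def lattice (a b d : ℤ) : AddSubgroup (Pool.Agent.Y667.BKP.H1f 2 (twist a b d)) :=
  Pool.Agent.L5helper6.SL.lat (twist a b d)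

/-- The subgroup `2 L_d` of `L_d`. -/
noncomputable def twice (a b d : ℤ) : AddSubgroup (lattice a b d) :=
  (nsmulAddMonoidHom (α := lattice a b d) 2).range

/-- The dimension of `H¹_f(ℚ, V_2(E_d))`: the logarithm to the base `2` of the index of `2 L_d` in
`L_d`. -/
noncomputable def selmerDim (a b d : ℤ) : ℕ := Nat.log 2 (Nat.card (lattice a b d ⧸ twice a b d))

/-- `H⁰(ℚ, V_2(E_d)) = 0`. -/
def NoInvariants (a b d : ℤ) : Prop :=
  ∀ x : Pool.Agent.Y667.BKP.PSeq (twist a b d), Pool.Agent.Y667.BKP.IsV 2 (twist a b d) x →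
    (∀ (σ : Pool.Agent.TH841.SH.D.Gal ℚ) (n : ℕ),
      Pool.Agent.TH841.SH.D.act (twist a b d) σ.toAlgHom (x n) = x n) → ∀ n, x n = 0

/-- The squarefree integers `d` with `|d| ≤ X`. -/
noncomputable def twists (X : ℕ) : Finset ℤ := Pool.Agent.Y19.QT.sqf X

/-- The number of zeros `ρ` of `F`, with multiplicities, with `|ρ - 1| ≤ η`. -/
noncomputable def zerosNear (F : ℂ → ℂ) (η : ℝ) : ℝ≥0∞ :=
  ∑' ρ : ℂ, if F ρ = 0 ∧ ‖ρ - 1‖ ≤ η then ((analyticOrderAt F ρ : ℕ∞) : ℝ≥0∞) else 0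

/-- `rank E_d(ℚ) + dim H¹_f(ℚ, V_2(E_d)) + n_d(η)`. -/
noncomputable def total (a b : ℤ) (F : ℤ → ℂ → ℂ) (η : ℝ) (d : ℤ) : ℝ :=
  rank a b d + selmerDim a b d + (zerosNear (F d) η).toReal

/-- `F d` is `L(E_d, s)`, an entire function, for all squarefree `d`. -/
def AreLFunctions (a b : ℤ) (F : ℤ → ℂ → ℂ) : Prop :=
  ∀ d : ℤ, Squarefree d → Pool.Agent.Y19.QT.IsLFun (a * d ^ 2) (b * d ^ 3) (F d)

/-- The facts on the Selmer groups of the twists. -/
def SelmerFacts (a b : ℤ) : Prop :=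
  ∃ C : ℕ, ∀ d : ℤ, d ≠ 0 → NoInvariants a b d ∧ Finite (lattice a b d ⧸ twice a b d) ∧
    Nat.card (lattice a b d ⧸ twice a b d) = 2 ^ selmerDim a b d ∧
    (∀ x : Pool.Agent.Y667.BKP.H1f 2 (twist a b d), (∃ m : ℕ, 2 ^ m • x ∈ lattice a b d) ∧
      (2 • x = 0 → x = 0)) ∧
    selmerDim a b d ≤ C + 12 * d.natAbs.primeFactors.card

/-- The bounds for the family of the quadratic twists. -/
def Bounds (a b : ℤ) : Prop :=
  (∀ d : ℤ, d ≠ 0 → Module.Finite ℤ (twist a b d).toAffine.Point) ∧ SelmerFacts a b ∧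
  (∃ F, AreLFunctions a b F) ∧ ∀ F, AreLFunctions a b F →
    (∀ d : ℤ, Squarefree d → analyticOrderAt (F d) 1 ≠ ⊤ ∧
      zerosNear (F d) 0 = ((analyticOrderAt (F d) 1 : ℕ∞) : ℝ≥0∞)) ∧
    (∃ (C c : ℝ) (A : ℕ), 0 < c ∧ ∀ (X : ℕ) (η : ℝ), 3 ≤ X → 0 ≤ η → η ≤ 1 / 8 →
      (∀ d ∈ twists X, zerosNear (F d) η ≠ ⊤) ∧
      ∑ d ∈ twists X, Real.exp (c * total a b F η d) ≤
        C * (X : ℝ) ^ (1 + 7 * η) * Real.log X ^ A) ∧
    ∀ k B : ℕ, ∃ C : ℝ, ∀ (X : ℕ) (η : ℝ) (S : Finset ℤ), 3 ≤ X → 0 ≤ η → η ≤ 1 / 8 →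
      S ⊆ twists X → ∑ d ∈ S, total a b F η d ^ k ≤
        C * (S.card + X / Real.log X ^ B) * (1 + Real.log (Real.log X) + η * Real.log X) ^ k

theorem zerosNear_zero (F : ℂ → ℂ) (hF : Differentiable ℂ F) :
    zerosNear F 0 = ((analyticOrderAt F 1 : ℕ∞) : ℝ≥0∞) := by
  unfold zerosNear
  rw [tsum_eq_single 1]
  · by_cases h : F 1 = 0
    · rw [if_pos ⟨h, by simp⟩]
    · rw [if_neg (fun h' => h h'.1), (hF.analyticAt 1).analyticOrderAt_eq_zero.2 h]
      simp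
  · intro ρ hρ
    rw [if_neg]
    rintro ⟨-, h⟩
    apply hρ
    have := norm_le_zero_iff.1 h
    exact sub_eq_zero.1 this

theorem selmer {a b : ℤ} (hab : 4 * a ^ 3 + 27 * b ^ 2 ≠ 0) : SelmerFacts a b := by
  obtain ⟨C, hC⟩ := Pool.Agent.L5helper6.SL.sel_bound a b hab
  refine ⟨C, fun d hd => ?_⟩
  obtain ⟨h1, h2⟩ := hC d hd
  have hfg : AddGroup.FG (twist a b d).toAffine.Point := Module.Finite.iff_addGroup_fg.1
    (Pool.Agent.Y19.QT.fg_EQ (Pool.Agent.Y19.QT.disc_ne hab hd))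
  have key : ∀ i : DecidableEq ℚ, @AddGroup.FG (twist a b d).toAffine.Point
      (@AddCommGroup.toAddGroup _ (@WeierstrassCurve.Affine.Point.instAddCommGroup ℚ _
        (twist a b d).toAffine i)) := by
    intro i
    obtain rfl : i = instDecidableEqRat := Subsingleton.elim _ _
    exact hfg
  exact ⟨Pool.Agent.L5helper6.SL.noinv (W := twist a b d) (key _), h1,
    Pool.Agent.L5helper6.SL.index_eq (W := twist a b d) h1,
    fun x => ⟨Pool.Agent.L5helper6.SL.lat_span (W := twist a b d) x,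
      Pool.Agent.L5helper6.SL.tf (W := twist a b d) x⟩, h2⟩

theorem bounds_of {a b : ℤ} (hab : 4 * a ^ 3 + 27 * b ^ 2 ≠ 0)
    (h : Pool.Agent.Y19.QT.HasTwists a b)
    (hL : ∀ d : ℤ, Squarefree d →
      ∃ F : ℂ → ℂ, Pool.Agent.Y19.QT.IsLFun (a * d ^ 2) (b * d ^ 3) F) :
    Bounds a b := by
  have hex : ∃ F, AreLFunctions a b F := by
    classical
    refine ⟨fun d => if hd : Squarefree d then (hL d hd).choose else 0, fun d hd => ?_⟩
    simp only [hd, dif_pos]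
    exact (hL d hd).choose_spec
  obtain ⟨C1, hC1⟩ := selmer hab
  obtain ⟨C2, hC2⟩ := Pool.Agent.Y155.QT14.T14 a b hab
  have hr : ∀ d : ℤ, d ≠ 0 → 0 ≤ ((rank a b d : ℝ) + (selmerDim a b d : ℝ)) ∧
      ((rank a b d : ℝ) + (selmerDim a b d : ℝ)) ≤
        ((C1 + C2 : ℕ) : ℝ) + 24 * d.natAbs.primeFactors.card := by
    intro d hd
    refine ⟨by positivity, ?_⟩
    have e1 : selmerDim a b d ≤ C1 + 12 * d.natAbs.primeFactors.card := (hC1 d hd).2.2.2.2
    have e2 : rank a b d ≤ C2 + 12 * d.natAbs.primeFactors.card := hC2 d hd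
    have e3 : rank a b d + selmerDim a b d ≤ (C1 + C2) + 24 * d.natAbs.primeFactors.card := by
      omega
    exact_mod_cast e3
  refine ⟨fun d hd => Pool.Agent.Y19.QT.fg_EQ (Pool.Agent.Y19.QT.disc_ne hab hd), ⟨C1, hC1⟩, hex,
    fun F hF => ⟨fun d hd => ?_, ?_, fun k B => ?_⟩⟩
  · exact ⟨(Pool.Agent.Y19.QT.twistLaw_of hab h hL).2 F hF |>.1 d hd,
      zerosNear_zero _ (hF d hd).1⟩
  · obtain ⟨C, c, A, hC, hc, hexp⟩ := Pool.Agent.L5helper6.SL.exp_gen hab h (C1 + C2)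
    refine ⟨C, c, A, hc, fun X η hX hη hη8 => ?_⟩
    obtain ⟨h1, h2⟩ := hexp _ F hr hF X η hX hη hη8
    refine ⟨h1, h2.trans (le_of_eq ?_)⟩
    have hX0 : (0 : ℝ) < X := by exact_mod_cast (by omega : 0 < X)
    rw [Real.rpow_add hX0, Real.rpow_one, Real.rpow_def_of_pos hX0]
    ring_nf
  · obtain ⟨C, hC⟩ := Pool.Agent.L5helper6.SL.moment_gen hab h (C1 + C2) k B
    exact ⟨C, fun X η S hX hη hη8 hS => hC _ F hr hF X η S hX hη hη8 hS⟩

theorem result : (∀ a b : ℤ, Pool.Agent.Y19.QT.Fam a b → Bounds a b) ∧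
    ∀ a b : ℤ, 4 * a ^ 3 + 27 * b ^ 2 ≠ 0 → Pool.Agent.Y19.QT.TwistsModular a b → Bounds a b :=
  ⟨fun _ _ h => bounds_of h.disc h.data.1 h.data.2, fun a b hab h =>
    bounds_of hab (Pool.Agent.Y19.QT.hasTwists_of a b hab h)
      (Pool.Agent.Y19.QT.exists_LFun a b hab h)⟩

end Pool.Agent.Results.MP_ec4e4b_nt.TwistFamilyMoments
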